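import Pool.Agent.Helper7.PNT.WI

/-!
# The prime number theorem in arithmetic progressions
-/

open MeasureTheory Real Set Filter Topology
open ArithmeticFunction hiding log

set_option linter.unusedSectionVars false

namespace Pool.Agent.Helper7.PNT

theorem S_vonMangoldt (x : ℝ) : S (fun n => vonMangoldt n) x = Chebyshev.psi x := by
  unfold S Chebyshev.psi
  rfl

variable {q : ℕ} [NeZero q] {a : ZMod q}

/-- `ψ(x; q, a) ~ x / φ(q)` -/
theorem psi_ap (ha : IsUnit a) :
    Tendsto (fun x => S (vonMangoldt.residueClass a) x / x) atTop (𝓝 (q.totient : ℝ)⁻¹) := by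
  refine wienerIkehara (f := vonMangoldt.residueClass a)
    (fun n => vonMangoldt.residueClass_nonneg a n) (C := log 4 + 4) (fun n => ?_)
    (vonMangoldt.continuousOn_LFunctionResidueClassAux a) (fun s hs => ?_)
  · refine le_trans ?_ (Chebyshev.psi_le_const_mul_self (Nat.cast_nonneg n))
    rw [← S_vonMangoldt]
    exact Finset.sum_le_sum fun k _ => vonMangoldt.residueClass_le a k
  · have h := vonMangoldt.eqOn_LFunctionResidueClassAux ha hs
    rw [h]
    push_cast
    rfl

/-- `log p` at the primes of the residue class `a` -/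
noncomputable def thF (a : ZMod q) (n : ℕ) : ℝ :=
  if n.Prime ∧ (n : ZMod q) = a then log n else 0

theorem thF_nonneg (n : ℕ) : 0 ≤ thF a n := by
  unfold thF
  split_ifs with h
  · exact log_natCast_nonneg n
  · exact le_rfl

theorem psi_sub_theta_ap (x : ℝ) :
    0 ≤ S (vonMangoldt.residueClass a) x - S (thF a) x ∧
      S (vonMangoldt.residueClass a) x - S (thF a) x ≤ Chebyshev.psi x - Chebyshev.theta x := by
  unfold S
  rw [← Finset.sum_sub_distrib, Chebyshev.psi_sub_theta_eq_sum_not_prime, Finset.sum_filter]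
  have key : ∀ n : ℕ, 0 ≤ vonMangoldt.residueClass a n - thF a n ∧
      vonMangoldt.residueClass a n - thF a n ≤ if ¬ n.Prime then vonMangoldt n else 0 := by
    intro n
    by_cases hp : n.Prime
    · have h1 : vonMangoldt.residueClass a n = thF a n := by
        unfold thF vonMangoldt.residueClass
        by_cases ha : (n : ZMod q) = a
        · rw [indicator_of_mem (show n ∈ {n : ℕ | (n : ZMod q) = a} from ha), if_pos ⟨hp, ha⟩,
            vonMangoldt_apply_prime hp]
        · rw [indicator_of_notMem (show n ∉ {n : ℕ | (n : ZMod q) = a} from ha),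
            if_neg (fun h => ha h.2)]
      rw [h1, sub_self, if_neg (not_not.2 hp)]
      exact ⟨le_rfl, le_rfl⟩
    · have h1 : thF a n = 0 := if_neg fun h => hp h.1
      rw [h1, sub_zero, if_pos hp]
      exact ⟨vonMangoldt.residueClass_nonneg a n, vonMangoldt.residueClass_le a n⟩
  exact ⟨Finset.sum_nonneg fun n _ => (key n).1, Finset.sum_le_sum fun n _ => (key n).2⟩

theorem sqrt_mul_log_div_tendsto :
    Tendsto (fun x : ℝ => 2 * √x * log x / x) atTop (𝓝 0) := by
  have h1 := (isLittleO_log_rpow_atTop (r := 1 / 2) (by norm_num)).tendsto_div_nhds_zero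
  have h2 := h1.const_mul 2
  rw [mul_zero] at h2
  refine h2.congr' ?_
  filter_upwards [eventually_gt_atTop 0] with x hx
  rw [← sqrt_eq_rpow]
  have h3 : √x / x = 1 / √x := sqrt_div_self'
  calc 2 * (log x / √x) = 2 * log x * (1 / √x) := by ring
    _ = 2 * √x * log x / x := by rw [← h3]; ring

/-- `θ(x; q, a) ~ x / φ(q)` -/
theorem theta_ap (ha : IsUnit a) :
    Tendsto (fun x => S (thF a) x / x) atTop (𝓝 (q.totient : ℝ)⁻¹) := by
  have h1 : Tendsto (fun x => (S (vonMangoldt.residueClass a) x - S (thF a) x) / x) atTop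
      (𝓝 0) := by
    refine tendsto_of_tendsto_of_tendsto_of_le_of_le' tendsto_const_nhds
      sqrt_mul_log_div_tendsto ?_ ?_
    · filter_upwards [eventually_gt_atTop 0] with x hx
      exact div_nonneg (psi_sub_theta_ap x).1 hx.le
    · filter_upwards [eventually_ge_atTop 1] with x hx
      exact div_le_div_of_nonneg_right ((psi_sub_theta_ap x).2.trans
        (Chebyshev.psi_sub_theta_le hx)) (by linarith)
  have h2 := (psi_ap ha).sub h1
  rw [sub_zero] at h2
  refine h2.congr fun x => ?_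
  ring

/-- **Primes in arithmetic progressions in short intervals**: for every `δ > 0` and all large `x`
there is a prime `p ≡ a (mod q)` in `(x, (1 + δ) x]`. -/
theorem exists_prime_ap (ha : IsUnit a) {δ : ℝ} (hδ : 0 < δ) :
    ∀ᶠ x : ℝ in atTop, ∃ p : ℕ, p.Prime ∧ (p : ZMod q) = a ∧ x < p ∧ (p : ℝ) ≤ (1 + δ) * x := by
  have hq0 : 0 < q.totient := Nat.totient_pos.2 (Nat.pos_of_ne_zero (NeZero.ne q))
  have hq : 0 < (q.totient : ℝ)⁻¹ := inv_pos.2 (by exact_mod_cast hq0)
  have h1 := theta_ap ha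
  have h2 := (h1.comp (tendsto_id.const_mul_atTop (show 0 < 1 + δ by linarith))).const_mul (1 + δ)
  have h3 := h2.sub h1
  have h4 : 0 < (1 + δ) * (q.totient : ℝ)⁻¹ - (q.totient : ℝ)⁻¹ := by nlinarith
  filter_upwards [h3.eventually (lt_mem_nhds h4), eventually_gt_atTop 0] with x hx hx0
  by_contra hc
  push Not at hc
  have h5 : S (thF a) ((1 + δ) * x) ≤ S (thF a) x := by
    have h6 : ⌊x⌋₊ ≤ ⌊(1 + δ) * x⌋₊ := Nat.floor_mono (by nlinarith)
    unfold S
    refine le_of_eq ?_
    symm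
    refine Finset.sum_subset (Finset.Icc_subset_Icc le_rfl h6) fun n hn hn' => ?_
    rw [Finset.mem_Icc] at hn hn'
    unfold thF
    refine if_neg fun h => ?_
    have h7 : x < n := by
      by_contra h8
      exact hn' ⟨hn.1, Nat.le_floor (not_lt.1 h8)⟩
    have h8 : (n : ℝ) ≤ (1 + δ) * x := (Nat.cast_le.2 hn.2).trans (Nat.floor_le (by positivity))
    exact absurd h8 (not_le.2 (hc n h.1 h.2 h7))
  have h6 : (1 + δ) * (S (thF a) ((1 + δ) * x) / ((1 + δ) * x)) = S (thF a) ((1 + δ) * x) / x := by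
    field_simp
  simp only [Function.comp_apply, id] at hx
  rw [h6, ← sub_div] at hx
  have h7 := (div_pos_iff_of_pos_right hx0).1 hx
  linarith

/-- for every `δ > 0` and all large `x` there is a prime in `(x, (1 + δ) x]` -/
theorem exists_prime {δ : ℝ} (hδ : 0 < δ) :
    ∀ᶠ x : ℝ in atTop, ∃ p : ℕ, p.Prime ∧ x < p ∧ (p : ℝ) ≤ (1 + δ) * x := by
  filter_upwards [exists_prime_ap (q := 1) (a := 0) (isUnit_of_subsingleton _) hδ] with x hx
  obtain ⟨p, hp, -, h⟩ := hx
  exact ⟨p, hp, h⟩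

/-- the number of the primes `p ≤ x`, `p ≡ a (mod q)` -/
noncomputable def piAP (a : ZMod q) (x : ℝ) : ℕ :=
  ((Finset.Icc 1 ⌊x⌋₊).filter fun p : ℕ => p.Prime ∧ (p : ZMod q) = a).card

theorem S_thF_eq (x : ℝ) :
    S (thF a) x = ∑ p ∈ (Finset.Icc 1 ⌊x⌋₊).filter (fun p : ℕ => p.Prime ∧ (p : ZMod q) = a),
      log (p : ℝ) := by
  unfold S thF
  rw [Finset.sum_filter]

theorem theta_le_pi (x : ℝ) (hx : 0 < x) : S (thF a) x ≤ piAP a x * log x := by
  rw [S_thF_eq, piAP, ← nsmul_eq_mul]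
  refine Finset.sum_le_card_nsmul _ _ _ fun p hp => ?_
  rw [Finset.mem_filter, Finset.mem_Icc] at hp
  exact log_le_log (by exact_mod_cast hp.2.1.pos)
    ((Nat.cast_le.2 hp.1.2).trans (Nat.floor_le hx.le))

theorem pi_le_theta {x ε : ℝ} (hx : 1 ≤ x) :
    (1 - ε) * log x * (piAP a x - x ^ (1 - ε)) ≤ S (thF a) x ∨ 1 < ε := by
  by_cases hε : 1 < ε
  · exact Or.inr hε
  left
  have hε' : 0 ≤ 1 - ε := by linarith [not_lt.1 hε]
  have hx0 : 0 < x := by linarith
  have h0 : 0 ≤ (1 - ε) * log x := mul_nonneg hε' (log_nonneg hx)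
  rw [S_thF_eq]
  set s := (Finset.Icc 1 ⌊x⌋₊).filter (fun p : ℕ => p.Prime ∧ (p : ZMod q) = a) with hs
  have h1 : (s.filter fun p : ℕ => x ^ (1 - ε) < p).card • ((1 - ε) * log x) ≤
      ∑ p ∈ s.filter (fun p : ℕ => x ^ (1 - ε) < p), log (p : ℝ) := by
    refine Finset.card_nsmul_le_sum _ _ _ fun p hp => ?_
    rw [Finset.mem_filter] at hp
    rw [← log_rpow hx0]
    exact log_le_log (rpow_pos_of_pos hx0 _) hp.2.le
  have h2 : ∑ p ∈ s.filter (fun p : ℕ => x ^ (1 - ε) < p), log (p : ℝ) ≤ ∑ p ∈ s, log (p : ℝ) :=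
    Finset.sum_le_sum_of_subset_of_nonneg (Finset.filter_subset _ _)
      fun p _ _ => log_natCast_nonneg p
  have h3 : (s.card : ℝ) - x ^ (1 - ε) ≤ ((s.filter fun p : ℕ => x ^ (1 - ε) < p).card : ℝ) := by
    have h4 := Finset.card_filter_add_card_filter_not (s := s) (fun p : ℕ => x ^ (1 - ε) < p)
    have h5 : ((s.filter fun p : ℕ => ¬ x ^ (1 - ε) < p).card : ℝ) ≤ x ^ (1 - ε) := by
      have h6 : (s.filter fun p : ℕ => ¬ x ^ (1 - ε) < p) ⊆ Finset.Icc 1 ⌊x ^ (1 - ε)⌋₊ := by
        intro p hp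
        rw [Finset.mem_filter, hs, Finset.mem_filter, Finset.mem_Icc] at hp
        rw [Finset.mem_Icc]
        exact ⟨hp.1.1.1, Nat.le_floor (not_lt.1 hp.2)⟩
      have h7 := Finset.card_le_card h6
      rw [Nat.card_Icc, Nat.add_sub_cancel] at h7
      exact (Nat.cast_le.2 h7).trans (Nat.floor_le (rpow_nonneg hx0.le _))
    have h8 : ((s.filter fun p : ℕ => x ^ (1 - ε) < p).card : ℝ) +
        ((s.filter fun p : ℕ => ¬ x ^ (1 - ε) < p).card : ℝ) = s.card := by
      exact_mod_cast h4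
    linarith
  have h9 : (piAP a x : ℝ) = s.card := rfl
  rw [h9]
  calc _ ≤ (1 - ε) * log x * ((s.filter fun p : ℕ => x ^ (1 - ε) < p).card : ℝ) :=
        mul_le_mul_of_nonneg_left h3 h0
    _ = (s.filter fun p : ℕ => x ^ (1 - ε) < p).card • ((1 - ε) * log x) := by
        rw [nsmul_eq_mul]; ring
    _ ≤ _ := h1.trans h2

/-- **The prime number theorem in arithmetic progressions**: `π(x; q, a) ~ x / (φ(q) log x)`. -/
theorem pi_ap (ha : IsUnit a) :
    Tendsto (fun x => piAP a x * log x / x) atTop (𝓝 (q.totient : ℝ)⁻¹) := by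
  have hq0 : 0 < q.totient := Nat.totient_pos.2 (Nat.pos_of_ne_zero (NeZero.ne q))
  have hq : 0 < (q.totient : ℝ)⁻¹ := inv_pos.2 (by exact_mod_cast hq0)
  have h1 := theta_ap ha
  refine tendsto_order.2 ⟨fun b hb => ?_, fun b hb => ?_⟩
  · filter_upwards [h1.eventually (lt_mem_nhds hb), eventually_gt_atTop 0] with x hx hx0
    exact hx.trans_le (div_le_div_of_nonneg_right (theta_le_pi x hx0) hx0.le)
  · obtain ⟨ε, hε, hε1, hε2⟩ : ∃ ε : ℝ, 0 < ε ∧ ε < 1 ∧ (q.totient : ℝ)⁻¹ < (1 - ε) * b := by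
      have hb0 : 0 < b := hq.trans hb
      refine ⟨(1 - (q.totient : ℝ)⁻¹ / b) / 2, ?_, ?_, ?_⟩
      · have := (div_lt_one hb0).2 hb
        linarith
      · have := div_pos hq hb0
        linarith
      · have h2 : (1 - (1 - (q.totient : ℝ)⁻¹ / b) / 2) * b = (b + (q.totient : ℝ)⁻¹) / 2 := by
          field_simp
          ring
        rw [h2]
        linarith
    have h2 : Tendsto (fun x : ℝ => (1 - ε) * (log x / x ^ ε)) atTop (𝓝 ((1 - ε) * 0)) :=
      ((isLittleO_log_rpow_atTop hε).tendsto_div_nhds_zero).const_mul _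
    have h3 := h1.add h2
    rw [mul_zero, add_zero] at h3
    filter_upwards [h3.eventually (gt_mem_nhds hε2), eventually_ge_atTop 1] with x hx hx1
    have hx0 : 0 < x := by linarith
    rcases pi_le_theta (a := a) (ε := ε) hx1 with h4 | h4
    · have h5 : x ^ (1 - ε) = x / x ^ ε := by rw [rpow_sub hx0, rpow_one]
      rw [h5] at h4
      have h6 : (1 - ε) * (piAP a x * log x / x) ≤ S (thF a) x / x + (1 - ε) * (log x / x ^ ε) := by
        have h7 : (1 - ε) * (piAP a x * log x / x) - (1 - ε) * (log x / x ^ ε) =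
            ((1 - ε) * log x * (piAP a x - x / x ^ ε)) / x := by
          have := (rpow_pos_of_pos hx0 ε).ne'
          field_simp
        have h8 := div_le_div_of_nonneg_right h4 hx0.le
        linarith
      have h7 := h6.trans_lt hx
      exact lt_of_mul_lt_mul_left h7 (by linarith)
    · linarith

/-- **The prime number theorem**: `π(x) ~ x / log x`. -/
theorem prime_number_theorem :
    Tendsto (fun x : ℝ => (Nat.primeCounting ⌊x⌋₊ : ℝ) * log x / x) atTop (𝓝 1) := by
  have h := pi_ap (q := 1) (a := 0) (isUnit_of_subsingleton _)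
  simp only [Nat.totient_one, Nat.cast_one, inv_one] at h
  refine h.congr fun x => ?_
  have h1 : piAP (0 : ZMod 1) x = Nat.primeCounting ⌊x⌋₊ := by
    unfold piAP Nat.primeCounting Nat.primeCounting'
    rw [Nat.count_eq_card_filter_range]
    refine congrArg Finset.card (Finset.ext fun p => ?_)
    rw [Finset.mem_filter, Finset.mem_filter, Finset.mem_Icc, Finset.mem_range]
    constructor
    · rintro ⟨h1, h2, -⟩
      exact ⟨by omega, h2⟩
    · rintro ⟨h1, h2⟩
      exact ⟨⟨h2.pos, by omega⟩, h2, Subsingleton.elim _ _⟩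
  rw [h1]

end Pool.Agent.Helper7.PNT
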