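import Pool.Agent.Helper7.PNT.Tauber3

/-!
# The Wiener-Ikehara theorem for Dirichlet series and the prime number theorem in arithmetic
progressions
-/

open MeasureTheory Real Set Filter Topology

namespace Pool.Agent.Helper7.PNT

/-- partial sums -/
noncomputable def S (f : ℕ → ℝ) (x : ℝ) : ℝ := ∑ k ∈ Finset.Icc 1 ⌊x⌋₊, f k

theorem S_mono {f : ℕ → ℝ} (hf : ∀ n, 0 ≤ f n) : Monotone (S f) := fun _ _ hxy =>
  Finset.sum_le_sum_of_subset_of_nonneg (Finset.Icc_subset_Icc le_rfl (Nat.floor_mono hxy))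
    fun _ _ _ => hf _

theorem S_nonneg {f : ℕ → ℝ} (hf : ∀ n, 0 ≤ f n) (x : ℝ) : 0 ≤ S f x :=
  Finset.sum_nonneg fun _ _ => hf _

theorem hyp_S {f : ℕ → ℝ} (hf : ∀ n, 0 ≤ f n) {C : ℝ} (hC : ∀ n : ℕ, S f n ≤ C * n) :
    Hyp (fun u => exp (-u) * S f (exp u)) C where
  meas := (measurable_exp.comp measurable_neg).mul ((S_mono hf).measurable.comp measurable_exp)
  nonneg u := mul_nonneg (exp_pos _).le (S_nonneg hf _)
  le u := by
    have hC0 : 0 ≤ C := by
      have := hC 1
      have h1 := S_nonneg hf ((1 : ℕ) : ℝ)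
      simp at this h1
      linarith
    have h1 : S f (exp u) ≤ C * exp u := by
      have h2 := hC ⌊exp u⌋₊
      unfold S at h2 ⊢
      rw [Nat.floor_natCast] at h2
      exact h2.trans (mul_le_mul_of_nonneg_left (Nat.floor_le (exp_pos u).le) hC0)
    rw [exp_neg, inv_mul_le_iff₀ (exp_pos _), mul_comm]
    exact h1
  neg u hu := by
    have h1 : ⌊exp u⌋₊ = 0 := Nat.floor_eq_zero.2 ((exp_lt_exp.2 hu).trans_eq exp_zero)
    simp [S, h1]
  mono u v huv := by
    have h1 := S_mono hf (exp_le_exp.2 huv)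
    have h2 : ∀ w : ℝ, exp (-w) * S f (exp w) * exp w = S f (exp w) := by
      intro w
      rw [mul_right_comm, ← exp_add]
      simp
    rw [h2, h2]
    exact h1

theorem lap_S {f : ℕ → ℝ} (hf : ∀ n, 0 ≤ f n) {C : ℝ} (hC : ∀ n : ℕ, S f n ≤ C * n) {s : ℂ}
    (hs : 0 < s.re) :
    LSeries (fun n => f n) (1 + s) = (1 + s) *
      ∫ u in Ioi (0 : ℝ), ((exp (-u) * S f (exp u) : ℝ) : ℂ) * Complex.exp (-(s * u)) := by
  rw [LSeries_eq_mul_integral_of_nonneg f zero_le_one (s := 1 + s) (by simpa using hs) ?_ hf]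
  · congr 1
    have h1 : exp '' Ioi (0 : ℝ) = Ioi 1 := by
      ext t
      constructor
      · rintro ⟨u, hu, rfl⟩
        exact one_lt_exp_iff.2 hu
      · intro ht
        exact ⟨log t, log_pos ht, exp_log (zero_lt_one.trans ht)⟩
    rw [← h1, integral_image_eq_integral_abs_deriv_smul measurableSet_Ioi
      (fun x _ => (hasDerivAt_exp x).hasDerivWithinAt) exp_injective.injOn]
    congr 1
    funext u
    rw [abs_of_pos (exp_pos u), Complex.real_smul]
    have h2 : ((exp u : ℝ) : ℂ) ^ (-(1 + s + 1)) = Complex.exp (u * (-(1 + s + 1))) := by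
      rw [Complex.cpow_def_of_ne_zero (by exact_mod_cast (exp_pos u).ne'), ← Complex.ofReal_log
        (exp_pos u).le, log_exp]
    rw [h2, S]
    push_cast
    have h3 : Complex.exp (u * (-(1 + s + 1))) =
        Complex.exp (-u) * Complex.exp (-u) * Complex.exp (-(s * u)) := by
      rw [← Complex.exp_add, ← Complex.exp_add]
      congr 1
      ring
    have h4 : Complex.exp u * Complex.exp (-u) = 1 := by
      rw [← Complex.exp_add]
      simp
    rw [h3]
    linear_combination ((∑ k ∈ Finset.Icc 1 ⌊exp u⌋₊, (f k : ℂ)) * Complex.exp (-u) *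
      Complex.exp (-(s * u))) * h4
  · refine Asymptotics.IsBigO.of_bound C (Eventually.of_forall fun n => ?_)
    have h1 := hC n
    have h2 := S_nonneg hf n
    unfold S at h1 h2
    rw [Nat.floor_natCast] at h1 h2
    rw [rpow_one, Real.norm_of_nonneg h2, Real.norm_of_nonneg (Nat.cast_nonneg n)]
    exact h1

/-- **The Wiener-Ikehara theorem** -/
theorem wienerIkehara {f : ℕ → ℝ} (hf : ∀ n, 0 ≤ f n) {C : ℝ} (hC : ∀ n : ℕ, S f n ≤ C * n)
    {A : ℝ} {G : ℂ → ℂ} (hG : ContinuousOn G {s | 1 ≤ s.re})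
    (hGf : ∀ s : ℂ, 1 < s.re → G s = LSeries (fun n => f n) s - A / (s - 1)) :
    Tendsto (fun x => S f x / x) atTop (𝓝 A) := by
  have h := hyp_S hf hC
  have hne : ∀ s : ℂ, 0 ≤ s.re → 1 + s ≠ 0 := by
    intro s hs h0
    have h1 := congrArg Complex.re h0
    simp at h1
    linarith
  have hg : ContinuousOn (fun s : ℂ => (G (1 + s) - A) / (1 + s)) {s | 0 ≤ s.re} := by
    refine ContinuousOn.div ((hG.comp (by fun_prop) fun s hs => ?_).sub continuousOn_const)
      (by fun_prop) fun s hs => hne s hs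
    show 1 ≤ (1 + s).re
    have : 0 ≤ s.re := hs
    simp
    exact this
  have h1 := tauber h (A := A) hg fun s hs => by
    have hs1 : 1 + s ≠ 0 := hne s hs.le
    have hs0 : s ≠ 0 := fun h0 => by rw [h0] at hs; simp at hs
    have h2 := lap_S hf hC hs
    have h3 := hGf (1 + s) (by simpa using hs)
    have hiB : IntegrableOn (fun u : ℝ => ((exp (-u) * S f (exp u) : ℝ) : ℂ) *
        Complex.exp (-(s * u))) (Ioi 0) := by
      have := lap_integrable h 0 hs
      simpa using this
    have hiA : IntegrableOn (fun u : ℝ => (A : ℂ) * Complex.exp (-(s * u))) (Ioi 0) := by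
      have h4 : IntegrableOn (fun u : ℝ => Complex.exp (-s * u)) (Ioi 0) :=
        integrableOn_exp_mul_complex_Ioi (by simpa using hs) 0
      refine (Integrable.const_mul h4 (A : ℂ)).congr (ae_of_all _ fun u => ?_)
      simp only [neg_mul]
    have h5 : ∫ u in Ioi (0 : ℝ), (A : ℂ) * Complex.exp (-(s * u)) = A / s := by
      rw [integral_const_mul]
      have h6 := integral_exp_mul_complex_Ioi (a := -s) (by simpa using hs) 0
      simp only [neg_mul, Complex.ofReal_zero, mul_zero, Complex.exp_zero] at h6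
      rw [h6]
      field_simp
    have h7 : ∫ u in Ioi (0 : ℝ), ((exp (-u) * S f (exp u) - A : ℝ) : ℂ) *
        Complex.exp (-(s * u)) = (∫ u in Ioi (0 : ℝ), ((exp (-u) * S f (exp u) : ℝ) : ℂ) *
        Complex.exp (-(s * u))) - ∫ u in Ioi (0 : ℝ), (A : ℂ) * Complex.exp (-(s * u)) := by
      rw [← integral_sub hiB hiA]
      congr 1
      funext u
      push_cast
      ring
    rw [h7, h5, h3, h2, add_sub_cancel_left]
    field_simp
    ring
  have h8 := h1.comp tendsto_log_atTop
  refine h8.congr' ?_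
  filter_upwards [eventually_gt_atTop 0] with x hx
  rw [Function.comp_apply, exp_neg, exp_log hx]
  field_simp

end Pool.Agent.Helper7.PNT
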