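import Mathlib

/-!
# The Fejér kernel
-/

open MeasureTheory Real Set Filter Topology

namespace Pool.Agent.Helper7.PNT

/-- the Fejér kernel -/
noncomputable def K (v : ℝ) : ℝ := if v = 0 then 1 else 2 * (1 - cos v) / v ^ 2

theorem K_nonneg (v : ℝ) : 0 ≤ K v := by
  unfold K
  split_ifs
  · exact zero_le_one
  · have := cos_le_one v
    positivity [sub_nonneg.2 this]

theorem K_le_one (v : ℝ) : K v ≤ 1 := by
  unfold K
  split_ifs with h
  · exact le_rfl
  · rw [div_le_one (by positivity)]
    have := one_sub_sq_div_two_le_cos (x := v)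
    linarith

theorem K_mul_sq_le (v : ℝ) : K v * v ^ 2 ≤ 4 := by
  unfold K
  split_ifs with h
  · subst h; norm_num
  · rw [div_mul_cancel₀ _ (by positivity)]
    have := neg_one_le_cos v
    linarith

theorem K_le (v : ℝ) : K v ≤ 5 * (1 + v ^ 2)⁻¹ := by
  rw [← div_eq_mul_inv, le_div_iff₀ (by positivity)]
  have := K_le_one v
  have := K_mul_sq_le v
  nlinarith

theorem K_neg (v : ℝ) : K (-v) = K v := by
  unfold K
  simp

theorem K_measurable : Measurable K := by
  unfold K
  exact Measurable.ite (measurableSet_singleton 0) measurable_const (by fun_prop)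

theorem K_integrable : Integrable K := by
  refine (integrable_inv_one_add_sq.const_mul 5).mono' K_measurable.aestronglyMeasurable ?_
  refine ae_of_all _ fun v => ?_
  rw [Real.norm_of_nonneg (K_nonneg v)]
  exact K_le v

theorem K_integral_pos : 0 < ∫ v, K v := by
  rw [integral_pos_iff_support_of_nonneg (fun v => K_nonneg v) K_integrable]
  refine lt_of_lt_of_le (b := volume (Ioo (0 : ℝ) 1)) (by simp) (measure_mono ?_)
  intro v hv
  rw [Function.mem_support]
  unfold K
  rw [if_neg hv.1.ne']
  have h1 : cos v < 1 := by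
    rw [← cos_zero]
    exact cos_lt_cos_of_nonneg_of_le_pi le_rfl (hv.2.le.trans (by linarith [pi_gt_three])) hv.1
  have h2 : 0 < 1 - cos v := by linarith
  have h3 := hv.1
  positivity

theorem integral_cos_mul (v : ℝ) :
    ∫ y in (0 : ℝ)..1, 2 * (1 - y) * cos (v * y) = K v := by
  by_cases hv : v = 0
  · subst hv
    unfold K
    rw [if_pos rfl]
    simp only [zero_mul, cos_zero, mul_one]
    rw [intervalIntegral.integral_const_mul, intervalIntegral.integral_sub (by simp) (by simp)]
    simp
    norm_num
  · have h : ∀ y ∈ uIcc (0 : ℝ) 1, HasDerivAt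
        (fun y => 2 * (1 - y) * sin (v * y) / v - 2 * cos (v * y) / v ^ 2)
        (2 * (1 - y) * cos (v * y)) y := by
      intro y _
      have h1 : HasDerivAt (fun y => v * y) v y := by
        simpa using (hasDerivAt_id y).const_mul v
      have h2 : HasDerivAt (fun y : ℝ => 2 * (1 - y)) (-2) y := by
        simpa using ((hasDerivAt_id y).const_sub 1).const_mul 2
      have h3 := ((h2.mul h1.sin).div_const v).sub ((h1.cos.const_mul 2).div_const (v ^ 2))
      convert! h3 using 1
      field_simp
      ring
    rw [intervalIntegral.integral_eq_sub_of_hasDerivAt h (by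
      apply Continuous.intervalIntegrable
      fun_prop)]
    unfold K
    rw [if_neg hv]
    simp
    field_simp
    ring

/-- the Fourier transform of the triangle function -/
theorem integral_triangle (v : ℝ) :
    ∫ y in (-1 : ℝ)..1, ((1 - |y| : ℝ) : ℂ) * Complex.exp (Complex.I * (v * y)) = (K v : ℂ) := by
  have hc : Continuous fun y : ℝ => ((1 - |y| : ℝ) : ℂ) * Complex.exp (Complex.I * (v * y)) := by
    fun_prop
  rw [← intervalIntegral.integral_add_adjacent_intervals (b := 0) (hc.intervalIntegrable _ _)
    (hc.intervalIntegrable _ _)]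
  have h1 : ∫ y in (-1 : ℝ)..0, ((1 - |y| : ℝ) : ℂ) * Complex.exp (Complex.I * (v * y)) =
      ∫ y in (0 : ℝ)..1, ((1 - |y| : ℝ) : ℂ) * Complex.exp (-(Complex.I * (v * y))) := by
    have h2 := intervalIntegral.integral_comp_neg (a := 0) (b := 1)
      (fun y : ℝ => ((1 - |y| : ℝ) : ℂ) * Complex.exp (Complex.I * (v * y)))
    rw [neg_zero] at h2
    rw [← h2]
    congr 1
    funext y
    simp
  rw [h1, ← intervalIntegral.integral_add (by
      apply Continuous.intervalIntegrable; fun_prop) (hc.intervalIntegrable _ _),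
    ← integral_cos_mul, ← intervalIntegral.integral_ofReal]
  apply intervalIntegral.integral_congr
  intro y hy
  rw [uIcc_of_le zero_le_one] at hy
  simp only
  rw [abs_of_nonneg hy.1]
  have h3 := Complex.two_cos (v * y : ℂ)
  push_cast
  rw [← mul_add]
  have h4 : 2 * (1 - (y : ℂ)) * Complex.cos (v * y) = (1 - (y : ℂ)) * (2 * Complex.cos (v * y)) := by
    ring
  rw [h4, Complex.two_cos]
  ring_nf

end Pool.Agent.Helper7.PNT
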