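import Pool.Agent.Helper7.PNT.Kernel

/-!
# The Wiener-Ikehara theorem (Laplace transforms, bounded case)
-/

open MeasureTheory Real Set Filter Topology

namespace Pool.Agent.Helper7.PNT

/-- hypotheses on the function `B u = exp (-u) * S (exp u)` -/
structure Hyp (B : ℝ → ℝ) (M : ℝ) : Prop where
  meas : Measurable B
  nonneg : ∀ u, 0 ≤ B u
  le : ∀ u, B u ≤ M
  neg : ∀ u < 0, B u = 0
  mono : ∀ u v, u ≤ v → B u * exp u ≤ B v * exp v

variable {B : ℝ → ℝ} {M : ℝ}

theorem abs_sub_le (h : Hyp B M) (A u : ℝ) : |B u - A| ≤ M + |A| := by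
  have h1 := h.nonneg u
  have h2 := h.le u
  have h3 := abs_sub (B u) A
  rw [abs_of_nonneg h1] at h3
  linarith

theorem lap_integrable (h : Hyp B M) (A : ℝ) {s : ℂ} (hs : 0 < s.re) :
    IntegrableOn (fun u : ℝ => ((B u - A : ℝ) : ℂ) * Complex.exp (-(s * u))) (Ioi 0) := by
  have h1 : IntegrableOn (fun u : ℝ => Complex.exp (-s * u)) (Ioi 0) :=
    integrableOn_exp_mul_complex_Ioi (by simpa using hs) 0
  refine (Integrable.bdd_mul (c := M + |A|) (f := fun u : ℝ => ((B u - A : ℝ) : ℂ)) h1 ?_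
    ?_).congr ?_
  · exact (Complex.measurable_ofReal.comp (h.meas.sub_const A)).aestronglyMeasurable
  · refine ae_of_all _ fun u => ?_
    rw [Complex.norm_real]
    exact abs_sub_le h A u
  · refine ae_of_all _ fun u => ?_
    simp only [neg_mul]

theorem stepA (h : Hyp B M) (A : ℝ) {ε : ℝ} (r x : ℝ) (hε : 0 < ε) :
    ∫ t in (-1 : ℝ)..1, (∫ u in Ioi (0 : ℝ), ((B u - A : ℝ) : ℂ) *
      Complex.exp (-((ε + Complex.I * (r * t)) * u))) *
        (((1 - |t| : ℝ) : ℂ) * Complex.exp (Complex.I * (r * t * x))) =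
    ((∫ u in Ioi (0 : ℝ), (B u - A) * exp (-(ε * u)) * K (r * (x - u)) : ℝ) : ℂ) := by
  rw [intervalIntegral.integral_of_le (by norm_num)]
  have h1 : ∀ t : ℝ, (∫ u in Ioi (0 : ℝ), ((B u - A : ℝ) : ℂ) *
      Complex.exp (-((ε + Complex.I * (r * t)) * u))) *
        (((1 - |t| : ℝ) : ℂ) * Complex.exp (Complex.I * (r * t * x))) =
      ∫ u in Ioi (0 : ℝ), (((B u - A : ℝ) : ℂ) * Complex.exp (-(ε * u))) *
        (((1 - |t| : ℝ) : ℂ) * Complex.exp (Complex.I * ((r * (x - u) : ℝ) * t))) := by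
    intro t
    rw [← integral_mul_const]
    congr 1
    funext u
    have h2 : Complex.exp (-((ε + Complex.I * (r * t)) * u)) * Complex.exp (Complex.I * (r * t * x))
        = Complex.exp (-(ε * u)) * Complex.exp (Complex.I * ((r * (x - u) : ℝ) * t)) := by
      rw [← Complex.exp_add, ← Complex.exp_add]
      congr 1
      push_cast
      ring
    calc _ = ((B u - A : ℝ) : ℂ) * ((1 - |t| : ℝ) : ℂ) *
          (Complex.exp (-((ε + Complex.I * (r * t)) * u)) *
            Complex.exp (Complex.I * (r * t * x))) := by ring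
      _ = _ := by rw [h2]; ring
  simp_rw [h1]
  rw [integral_integral_swap]
  · rw [← integral_complex_ofReal]
    congr 1
    funext u
    rw [integral_const_mul, ← intervalIntegral.integral_of_le (by norm_num), integral_triangle]
    push_cast
    ring
  · have h2 : IntegrableOn (fun t : ℝ => ((1 - |t| : ℝ) : ℂ)) (Ioc (-1) 1) :=
      (Continuous.integrableOn_Icc (by fun_prop)).mono_set Ioc_subset_Icc_self
    have h3 : IntegrableOn (fun u : ℝ => ((B u - A : ℝ) : ℂ) * Complex.exp (-(ε * u))) (Ioi 0) :=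
      lap_integrable h A (s := ε) (by simpa using hε)
    have h4 := Integrable.mul_prod h2 h3
    refine (Integrable.bdd_mul (c := 1) (f := fun z : ℝ × ℝ =>
      Complex.exp (Complex.I * ((r * (x - z.2) : ℝ) * z.1))) h4 ?_ ?_).congr ?_
    · apply Continuous.aestronglyMeasurable
      fun_prop
    · refine ae_of_all _ fun z => ?_
      have h5 : Complex.I * ((r * (x - z.2) : ℝ) * z.1) =
          (((r * (x - z.2)) * z.1 : ℝ) : ℂ) * Complex.I := by push_cast; ring
      rw [h5, Complex.norm_exp_ofReal_mul_I]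
    · refine ae_of_all _ fun z => ?_
      simp only [Function.uncurry]
      ring

end Pool.Agent.Helper7.PNT
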