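import Pool.Agent.Helper7.PNT.Tauber

/-!
# The Wiener-Ikehara theorem (Laplace transforms, bounded case), limits
-/

open MeasureTheory Real Set Filter Topology

namespace Pool.Agent.Helper7.PNT

variable {B : ℝ → ℝ} {M : ℝ}

theorem K_comp_integrable {r : ℝ} (hr : r ≠ 0) (x : ℝ) :
    Integrable fun u : ℝ => K (r * (x - u)) :=
  (K_integrable.comp_mul_left' hr).comp_sub_left x

theorem stepB (h : Hyp B M) {A : ℝ} {g : ℂ → ℂ} (hg : ContinuousOn g {s | 0 ≤ s.re})
    (hgB : ∀ s : ℂ, 0 < s.re →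
      ∫ u in Ioi (0 : ℝ), ((B u - A : ℝ) : ℂ) * Complex.exp (-(s * u)) = g s)
    {r : ℝ} (hr : r ≠ 0) (x : ℝ) :
    ∫ t in (-1 : ℝ)..1, g (Complex.I * (r * t)) *
        (((1 - |t| : ℝ) : ℂ) * Complex.exp (Complex.I * (r * t * x))) =
    ((∫ u in Ioi (0 : ℝ), (B u - A) * K (r * (x - u)) : ℝ) : ℂ) := by
  have hre : ∀ ε t : ℝ, ((ε : ℂ) + Complex.I * (r * t)).re = ε := by
    intro ε t
    simp
  have hgc : ∀ ε : ℝ, 0 ≤ ε → Continuous fun t : ℝ => g (ε + Complex.I * (r * t)) := by
    intro ε hε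
    refine hg.comp_continuous (by fun_prop) fun t => ?_
    show 0 ≤ ((ε : ℂ) + Complex.I * (r * t)).re
    rw [hre]
    exact hε
  obtain ⟨C, hC⟩ : ∃ C, ∀ z ∈ Icc (0 : ℝ) 1 ×ˢ Icc (-1 : ℝ) 1,
      ‖g (z.1 + Complex.I * (r * z.2))‖ ≤ C := by
    refine (isCompact_Icc.prod isCompact_Icc).exists_bound_of_continuousOn ?_
    refine hg.comp (Continuous.continuousOn (by fun_prop)) fun z hz => ?_
    show 0 ≤ ((z.1 : ℂ) + Complex.I * (r * z.2)).re
    rw [hre]
    exact hz.1.1
  have hL : Tendsto (fun ε : ℝ => ∫ t in (-1 : ℝ)..1, g (ε + Complex.I * (r * t)) *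
        (((1 - |t| : ℝ) : ℂ) * Complex.exp (Complex.I * (r * t * x)))) (𝓝[>] 0)
      (𝓝 (∫ t in (-1 : ℝ)..1, g (Complex.I * (r * t)) *
        (((1 - |t| : ℝ) : ℂ) * Complex.exp (Complex.I * (r * t * x))))) := by
    refine intervalIntegral.tendsto_integral_filter_of_dominated_convergence (fun _ => C) ?_ ?_
      (by simp) ?_
    · filter_upwards [self_mem_nhdsWithin] with ε hε
      exact ((hgc ε (le_of_lt hε)).mul (by fun_prop)).aestronglyMeasurable
    · filter_upwards [Ioc_mem_nhdsGT (show (0 : ℝ) < 1 by norm_num)] with ε hε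
      refine ae_of_all _ fun t ht => ?_
      rw [uIoc_of_le (by norm_num)] at ht
      have h1 := hC (ε, t) ⟨⟨hε.1.le, hε.2⟩, ht.1.le, ht.2⟩
      have h2 : ‖Complex.exp (Complex.I * (r * t * x))‖ = 1 := by
        have h5 : Complex.I * (r * t * x) = ((r * t * x : ℝ) : ℂ) * Complex.I := by
          push_cast; ring
        rw [h5, Complex.norm_exp_ofReal_mul_I]
      have h3 : |t| ≤ 1 := abs_le.2 ⟨ht.1.le, ht.2⟩
      rw [norm_mul, norm_mul, h2, mul_one, Complex.norm_real, Real.norm_eq_abs,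
        abs_of_nonneg (by linarith)]
      have h4 := abs_nonneg t
      have h5 := norm_nonneg (g (ε + Complex.I * (r * t)))
      nlinarith
    · refine ae_of_all _ fun t _ => ?_
      refine Tendsto.mul_const _ ?_
      have h1 : Tendsto g (𝓝[{s | 0 ≤ s.re}] (Complex.I * (r * t)))
          (𝓝 (g (Complex.I * (r * t)))) := hg _ (by simp)
      refine h1.comp (tendsto_nhdsWithin_iff.2 ⟨?_, ?_⟩)
      · have h2 : Continuous fun ε : ℝ => (ε : ℂ) + Complex.I * (r * t) := by fun_prop
        have h3 := h2.tendsto 0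
        simp only [Complex.ofReal_zero, zero_add] at h3
        exact h3.mono_left nhdsWithin_le_nhds
      · filter_upwards [self_mem_nhdsWithin] with ε hε
        show 0 ≤ ((ε : ℂ) + Complex.I * (r * t)).re
        rw [hre]
        exact le_of_lt hε
  have hR : Tendsto (fun ε : ℝ => ∫ u in Ioi (0 : ℝ), (B u - A) * exp (-(ε * u)) *
      K (r * (x - u))) (𝓝[>] 0) (𝓝 (∫ u in Ioi (0 : ℝ), (B u - A) * K (r * (x - u)))) := by
    refine tendsto_integral_filter_of_dominated_convergence
      (fun u => (M + |A|) * K (r * (x - u))) ?_ ?_ ?_ ?_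
    · refine Eventually.of_forall fun ε => ?_
      refine Measurable.aestronglyMeasurable ?_
      have h1 := K_measurable
      have h2 := h.meas
      fun_prop
    · filter_upwards [self_mem_nhdsWithin] with ε hε
      refine (ae_restrict_mem measurableSet_Ioi).mono fun u hu => ?_
      have hε' : 0 < ε := hε
      have hu' : 0 < u := hu
      rw [norm_mul, norm_mul, Real.norm_of_nonneg (K_nonneg _), Real.norm_of_nonneg (exp_pos _).le]
      refine mul_le_mul_of_nonneg_right ?_ (K_nonneg _)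
      have h1 : exp (-(ε * u)) ≤ 1 := exp_le_one_iff.2 (by nlinarith)
      have h2 := abs_sub_le h A u
      rw [Real.norm_eq_abs]
      nlinarith [abs_nonneg (B u - A), exp_pos (-(ε * u))]
    · exact ((K_comp_integrable hr x).const_mul _).integrableOn
    · refine ae_of_all _ fun u => ?_
      have h2 : Continuous fun ε : ℝ => (B u - A) * exp (-(ε * u)) * K (r * (x - u)) := by
        fun_prop
      have h3 := h2.tendsto 0
      simp only [zero_mul, neg_zero, exp_zero, mul_one] at h3
      exact h3.mono_left nhdsWithin_le_nhds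
  have hR' := (Complex.continuous_ofReal.tendsto _).comp hR
  refine tendsto_nhds_unique hL (hR'.congr' ?_)
  filter_upwards [self_mem_nhdsWithin] with ε hε
  rw [Function.comp_apply, ← stepA h A r x hε]
  congr 1
  funext t
  rw [hgB _ (by rw [hre]; exact hε)]

/-- Riemann-Lebesgue -/
theorem stepC {g : ℂ → ℂ} {r : ℝ} (hr : 0 < r) :
    Tendsto (fun x : ℝ => ∫ t in (-1 : ℝ)..1, g (Complex.I * (r * t)) *
        (((1 - |t| : ℝ) : ℂ) * Complex.exp (Complex.I * (r * t * x)))) atTop (𝓝 0) := by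
  have h1 := Real.tendsto_integral_exp_smul_cocompact
    (fun t : ℝ => (Ioc (-1 : ℝ) 1).indicator
      (fun t : ℝ => g (Complex.I * (r * t)) * ((1 - |t| : ℝ) : ℂ)) t)
  have h2 : Tendsto (fun x : ℝ => -(r * x / (2 * π))) atTop (cocompact ℝ) := by
    have h3 : Tendsto (fun x : ℝ => -(r * x / (2 * π))) atTop atBot := by
      refine tendsto_neg_atTop_atBot.comp ?_
      exact (tendsto_id.const_mul_atTop hr).atTop_div_const (by positivity)
    rw [_root_.cocompact_eq_atBot_atTop]
    exact h3.mono_right le_sup_left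
  refine (h1.comp h2).congr fun x => ?_
  rw [Function.comp_apply, intervalIntegral.integral_of_le (by norm_num),
    ← integral_indicator measurableSet_Ioc]
  congr 1
  funext t
  by_cases ht : t ∈ Ioc (-1 : ℝ) 1
  · rw [indicator_of_mem ht, indicator_of_mem ht, Circle.smul_def, fourierChar_apply, smul_eq_mul]
    have h3 : (↑(2 * π * -(t * -(r * x / (2 * π)))) : ℂ) * Complex.I =
        Complex.I * (r * t * x) := by
      push_cast
      have : (π : ℂ) ≠ 0 := by exact_mod_cast pi_ne_zero
      field_simp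
    rw [h3]
    ring
  · rw [indicator_of_notMem ht, indicator_of_notMem ht, smul_zero]

/-- the smoothed function -/
noncomputable def H (B : ℝ → ℝ) (r x : ℝ) : ℝ := ∫ w, B (x - w / r) * K w

theorem H_integrable (h : Hyp B M) (r x : ℝ) : Integrable fun w => B (x - w / r) * K w := by
  refine Integrable.bdd_mul (c := M) K_integrable ?_ ?_
  · have h2 := h.meas
    exact Measurable.aestronglyMeasurable (by fun_prop)
  · refine ae_of_all _ fun w => ?_
    rw [Real.norm_of_nonneg (h.nonneg _)]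
    exact h.le _

theorem H_eq (h : Hyp B M) {r : ℝ} (hr : 0 < r) (x : ℝ) :
    ∫ u in Ioi (0 : ℝ), B u * K (r * (x - u)) = r⁻¹ * H B r x := by
  have h1 : ∫ u in Ioi (0 : ℝ), B u * K (r * (x - u)) = ∫ u, B u * K (r * (x - u)) := by
    rw [← integral_Ici_eq_integral_Ioi]
    refine setIntegral_eq_integral_of_forall_compl_eq_zero fun u hu => ?_
    rw [h.neg u (not_le.1 hu), zero_mul]
  have h2 := integral_sub_left_eq_self (fun u => B u * K (r * (x - u))) volume x
  have h3 := Measure.integral_comp_mul_left (fun w => B (x - w / r) * K w) r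
  rw [abs_of_pos (inv_pos.2 hr), smul_eq_mul] at h3
  rw [h1, ← h2, H, ← h3]
  congr 1
  funext v
  rw [mul_div_cancel_left₀ _ hr.ne', sub_sub_cancel]

theorem stepD {r : ℝ} (hr : 0 < r) (A : ℝ) :
    Tendsto (fun x : ℝ => ∫ u in Ioi (0 : ℝ), A * K (r * (x - u))) atTop
      (𝓝 (r⁻¹ * (A * ∫ v, K v))) := by
  have h1 : ∀ x : ℝ, ∫ u in Ioi (0 : ℝ), A * K (r * (x - u)) =
      ∫ v in Iio x, A * K (r * v) := by
    intro x
    rw [← integral_indicator measurableSet_Ioi, ← integral_indicator measurableSet_Iio,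
      ← integral_sub_left_eq_self _ volume x]
    congr 1
    funext v
    by_cases hv : v < x
    · rw [indicator_of_mem (show x - v ∈ Ioi (0 : ℝ) from sub_pos.2 hv),
        indicator_of_mem (show v ∈ Iio x from hv), sub_sub_cancel]
    · rw [indicator_of_notMem (fun h : x - v ∈ Ioi (0 : ℝ) => hv (sub_pos.1 h)),
        indicator_of_notMem (show v ∉ Iio x from hv)]
  simp_rw [h1]
  have h2 : Integrable fun v => A * K (r * v) := (K_integrable.comp_mul_left' hr.ne').const_mul A
  have h3 := (aecover_Iio (μ := volume) (tendsto_id (α := ℝ) (x := atTop))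
    ).integral_tendsto_of_countably_generated h2
  have h4 := Measure.integral_comp_mul_left (fun w => A * K w) r
  rw [abs_of_pos (inv_pos.2 hr), smul_eq_mul] at h4
  rw [h4, integral_const_mul] at h3
  exact h3

theorem H_tendsto (h : Hyp B M) {A : ℝ} {g : ℂ → ℂ} (hg : ContinuousOn g {s | 0 ≤ s.re})
    (hgB : ∀ s : ℂ, 0 < s.re →
      ∫ u in Ioi (0 : ℝ), ((B u - A : ℝ) : ℂ) * Complex.exp (-(s * u)) = g s)
    {r : ℝ} (hr : 0 < r) : Tendsto (H B r) atTop (𝓝 (A * ∫ v, K v)) := by
  have h1 := stepC (g := g) hr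
  have h2 : Tendsto (fun x : ℝ => ∫ u in Ioi (0 : ℝ), (B u - A) * K (r * (x - u))) atTop
      (𝓝 0) := by
    have h3 := (Complex.continuous_re.tendsto _).comp h1
    rw [Complex.zero_re] at h3
    refine h3.congr fun x => ?_
    rw [Function.comp_apply, stepB h hg hgB hr.ne' x, Complex.ofReal_re]
  have h4 := (h2.add (stepD hr A)).const_mul r
  rw [zero_add, mul_inv_cancel_left₀ hr.ne'] at h4
  refine h4.congr fun x => ?_
  have h5 : IntegrableOn (fun u => A * K (r * (x - u))) (Ioi 0) :=
    ((K_comp_integrable hr.ne' x).const_mul _).integrableOn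
  have h6 : IntegrableOn (fun u => B u * K (r * (x - u))) (Ioi 0) := by
    refine Integrable.integrableOn ?_
    refine Integrable.bdd_mul (c := M) (K_comp_integrable hr.ne' x)
      h.meas.aestronglyMeasurable ?_
    refine ae_of_all _ fun w => ?_
    rw [Real.norm_of_nonneg (h.nonneg _)]
    exact h.le _
  have h7 : ∫ u in Ioi (0 : ℝ), (B u - A) * K (r * (x - u)) =
      (∫ u in Ioi (0 : ℝ), B u * K (r * (x - u))) -
        ∫ u in Ioi (0 : ℝ), A * K (r * (x - u)) := by
    rw [← integral_sub h6 h5]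
    congr 1
    funext u
    ring
  rw [h7, sub_add_cancel, H_eq h hr, mul_inv_cancel_left₀ hr.ne']

end Pool.Agent.Helper7.PNT
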