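import Pool.Agent.Helper7.PNT.Tauber2

/-!
# The Wiener-Ikehara theorem (Laplace transforms, bounded case), conclusion
-/

open MeasureTheory Real Set Filter Topology

namespace Pool.Agent.Helper7.PNT

variable {B : ℝ → ℝ} {M : ℝ}

theorem H_ge (h : Hyp B M) {δ R : ℝ} (hδ : 0 < δ) (hR : 0 < R) (x : ℝ) :
    B x * exp (-(2 * δ)) * (∫ w in Ioc (-R) R, K w) ≤ H B (R / δ) (x + δ) := by
  rw [← integral_const_mul]
  refine le_trans ?_ (setIntegral_le_integral (s := Ioc (-R) R) (H_integrable h _ _)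
    (ae_of_all _ fun w => mul_nonneg (h.nonneg _) (K_nonneg _)))
  refine setIntegral_mono_on (K_integrable.const_mul _).integrableOn
    (H_integrable h _ _).integrableOn measurableSet_Ioc fun w hw => ?_
  refine mul_le_mul_of_nonneg_right ?_ (K_nonneg _)
  have h1 : w / (R / δ) = δ * (w / R) := by field_simp
  rw [h1]
  have h2 : w / R ≤ 1 := (div_le_one hR).2 hw.2
  have h3 : -1 ≤ w / R := by
    rw [le_div_iff₀ hR]
    linarith [hw.1]
  have h4 := h.mono x (x + δ - δ * (w / R)) (by nlinarith)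
  have h5 : exp (x + δ - δ * (w / R)) ≤ exp x * exp (2 * δ) := by
    rw [← exp_add]
    exact exp_le_exp.2 (by nlinarith)
  have h6 : B x * exp x ≤ B (x + δ - δ * (w / R)) * (exp x * exp (2 * δ)) :=
    h4.trans (mul_le_mul_of_nonneg_left h5 (h.nonneg _))
  have h7 : B x ≤ B (x + δ - δ * (w / R)) * exp (2 * δ) := by
    have h8 := exp_pos x
    by_contra hc
    push Not at hc
    nlinarith
  rw [exp_neg, ← div_eq_mul_inv, div_le_iff₀ (exp_pos _)]
  exact h7

theorem H_le (h : Hyp B M) {δ R : ℝ} (hδ : 0 < δ) (hR : 0 < R) (x : ℝ) :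
    H B (R / δ) (x - δ) ≤ B x * exp (2 * δ) * (∫ w in Ioc (-R) R, K w) +
      M * ((∫ w, K w) - ∫ w in Ioc (-R) R, K w) := by
  have h0 : (∫ w, K w) - (∫ w in Ioc (-R) R, K w) = ∫ w in (Ioc (-R) R)ᶜ, K w := by
    rw [← integral_add_compl (measurableSet_Ioc (a := -R) (b := R)) K_integrable]
    ring
  rw [h0, H, ← integral_add_compl (measurableSet_Ioc (a := -R) (b := R)) (H_integrable h _ _),
    ← integral_const_mul, ← integral_const_mul]
  refine add_le_add ?_ ?_
  · refine setIntegral_mono_on (H_integrable h _ _).integrableOn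
      (K_integrable.const_mul _).integrableOn measurableSet_Ioc fun w hw => ?_
    refine mul_le_mul_of_nonneg_right ?_ (K_nonneg _)
    have h1 : w / (R / δ) = δ * (w / R) := by field_simp
    rw [h1]
    have h2 : w / R ≤ 1 := (div_le_one hR).2 hw.2
    have h3 : -1 ≤ w / R := by
      rw [le_div_iff₀ hR]
      linarith [hw.1]
    have h4 := h.mono (x - δ - δ * (w / R)) x (by nlinarith)
    have h5 : exp x ≤ exp (x - δ - δ * (w / R)) * exp (2 * δ) := by
      rw [← exp_add]
      exact exp_le_exp.2 (by nlinarith)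
    have h6 : B (x - δ - δ * (w / R)) * exp (x - δ - δ * (w / R)) ≤
        B x * (exp (x - δ - δ * (w / R)) * exp (2 * δ)) :=
      h4.trans (mul_le_mul_of_nonneg_left h5 (h.nonneg _))
    have h8 := exp_pos (x - δ - δ * (w / R))
    by_contra hc
    push Not at hc
    nlinarith
  · refine setIntegral_mono_on (H_integrable h _ _).integrableOn
      (K_integrable.const_mul _).integrableOn measurableSet_Ioc.compl fun w hw => ?_
    exact mul_le_mul_of_nonneg_right (h.le _) (K_nonneg _)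

theorem cR_tendsto : Tendsto (fun R : ℝ => ∫ w in Ioc (-R) R, K w) atTop (𝓝 (∫ w, K w)) := by
  have h1 := intervalIntegral_tendsto_integral K_integrable tendsto_neg_atTop_atBot
    (tendsto_id (α := ℝ) (x := atTop))
  refine h1.congr' ?_
  filter_upwards [eventually_ge_atTop 0] with R hR
  rw [id, intervalIntegral.integral_of_le (by linarith)]

/-- **The Wiener-Ikehara theorem** (Laplace transforms, bounded case). -/
theorem tauber (h : Hyp B M) {A : ℝ} {g : ℂ → ℂ} (hg : ContinuousOn g {s | 0 ≤ s.re})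
    (hgB : ∀ s : ℂ, 0 < s.re →
      ∫ u in Ioi (0 : ℝ), ((B u - A : ℝ) : ℂ) * Complex.exp (-(s * u)) = g s) :
    Tendsto B atTop (𝓝 A) := by
  have hc := K_integral_pos
  have hexp : Tendsto (fun δ : ℝ => exp (2 * δ)) (𝓝[>] 0) (𝓝 1) := by
    have h1 : Continuous fun δ : ℝ => exp (2 * δ) := by fun_prop
    have h2 := h1.tendsto 0
    simp only [mul_zero, exp_zero] at h2
    exact h2.mono_left nhdsWithin_le_nhds
  have hH : ∀ {δ R : ℝ}, 0 < δ → 0 < R → Tendsto (H B (R / δ)) atTop (𝓝 (A * ∫ v, K v)) :=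
    fun hδ hR => H_tendsto h hg hgB (div_pos hR hδ)
  refine tendsto_order.2 ⟨fun a ha => ?_, fun a ha => ?_⟩
  · -- lower bound
    have h1 : Tendsto (fun δ : ℝ => a * exp (2 * δ)) (𝓝[>] 0) (𝓝 (a * 1)) := hexp.const_mul a
    rw [mul_one] at h1
    obtain ⟨δ, hδ1, hδ⟩ := ((h1.eventually (gt_mem_nhds ha)).and self_mem_nhdsWithin).exists
    have hδ' : 0 < δ := hδ
    have h2 : Tendsto (fun R : ℝ => a * exp (2 * δ) * (∫ w in Ioc (-R) R, K w) +
        M * ((∫ w, K w) - ∫ w in Ioc (-R) R, K w)) atTop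
        (𝓝 (a * exp (2 * δ) * (∫ w, K w) + M * ((∫ w, K w) - ∫ w, K w))) :=
      (cR_tendsto.const_mul _).add ((tendsto_const_nhds.sub cR_tendsto).const_mul _)
    rw [sub_self, mul_zero, add_zero] at h2
    have h3 : a * exp (2 * δ) * (∫ w, K w) < A * ∫ w, K w := mul_lt_mul_of_pos_right hδ1 hc
    obtain ⟨R, ⟨hR1, hR2⟩, hR⟩ := (((h2.eventually (gt_mem_nhds h3)).and
      (cR_tendsto.eventually (lt_mem_nhds hc))).and (eventually_gt_atTop 0)).exists
    have h4 := ((hH hδ' hR).comp (tendsto_atTop_add_const_right atTop (-δ) tendsto_id)).eventually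
      (lt_mem_nhds hR1)
    filter_upwards [h4] with x hx
    have h5 : a * exp (2 * δ) * (∫ w in Ioc (-R) R, K w) +
        M * ((∫ w, K w) - ∫ w in Ioc (-R) R, K w) < H B (R / δ) (x - δ) := hx
    have h6 := H_le h hδ' hR x
    have h7 : a * exp (2 * δ) * (∫ w in Ioc (-R) R, K w) <
        B x * exp (2 * δ) * (∫ w in Ioc (-R) R, K w) := by linarith
    have h8 := lt_of_mul_lt_mul_right h7 hR2.le
    exact lt_of_mul_lt_mul_right h8 (exp_pos _).le
  · -- upper bound
    have h1 : Tendsto (fun δ : ℝ => a * (exp (2 * δ))⁻¹) (𝓝[>] 0) (𝓝 (a * 1⁻¹)) :=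
      (hexp.inv₀ one_ne_zero).const_mul a
    rw [inv_one, mul_one] at h1
    obtain ⟨δ, hδ1, hδ⟩ := ((h1.eventually (lt_mem_nhds ha)).and self_mem_nhdsWithin).exists
    have hδ' : 0 < δ := hδ
    have h2 : Tendsto (fun R : ℝ => a * (exp (2 * δ))⁻¹ * (∫ w in Ioc (-R) R, K w)) atTop
        (𝓝 (a * (exp (2 * δ))⁻¹ * (∫ w, K w))) := cR_tendsto.const_mul _
    have h3 : A * (∫ w, K w) < a * (exp (2 * δ))⁻¹ * ∫ w, K w := mul_lt_mul_of_pos_right hδ1 hc
    obtain ⟨R, ⟨hR1, hR2⟩, hR⟩ := (((h2.eventually (lt_mem_nhds h3)).and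
      (cR_tendsto.eventually (lt_mem_nhds hc))).and (eventually_gt_atTop 0)).exists
    have h4 := ((hH hδ' hR).comp (tendsto_atTop_add_const_right atTop δ tendsto_id)).eventually
      (gt_mem_nhds hR1)
    filter_upwards [h4] with x hx
    have h5 : H B (R / δ) (x + δ) < a * (exp (2 * δ))⁻¹ * (∫ w in Ioc (-R) R, K w) := hx
    have h6 := H_ge h hδ' hR x
    rw [exp_neg] at h6
    have h7 := lt_of_le_of_lt h6 h5
    have h8 := lt_of_mul_lt_mul_right h7 hR2.le
    exact lt_of_mul_lt_mul_right h8 (inv_pos.2 (exp_pos _)).le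

end Pool.Agent.Helper7.PNT
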